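import Pool.Agent.X216.BH.Main
import Pool.Agent.X216.BH.Sharp

open Finset Filter Topology Metric

namespace Pool.Agent.Results.MP_8fe0b8_an.SharpRadius

open Pool.Agent.X216.BH

/-- The `n`-th Taylor coefficient of `f` at the origin. -/
noncomputable def coeff (f : ℂ → ℂ) (n : ℕ) : ℂ := ((n.factorial : ℂ))⁻¹ * iteratedDeriv n f 0

/-- The harmonic mapping `f = h + conj g` of the open unit disc belongs to the class `F_K`:
`h` and `g` are analytic in the disc, vanish at the origin, `h` is bounded, and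
`|g'| ≤ k |h'|` in the disc, with `k = (K - 1) / (K + 1)`. -/
structure InClass (K : ℝ) (h g : ℂ → ℂ) : Prop where
  h_diff : DifferentiableOn ℂ h (ball (0 : ℂ) 1)
  g_diff : DifferentiableOn ℂ g (ball (0 : ℂ) 1)
  h_zero : h 0 = 0
  g_zero : g 0 = 0
  h_bdd : ∃ M : ℝ, ∀ z : ℂ, ‖z‖ < 1 → ‖h z‖ ≤ M
  dil : ∀ z : ℂ, ‖z‖ < 1 → ‖deriv g z‖ ≤ (K - 1) / (K + 1) * ‖deriv h z‖

/-- The supremum of `|h|` over the open unit disc. -/
noncomputable def supNorm (h : ℂ → ℂ) : ℝ := ⨆ z : ball (0 : ℂ) 1, ‖h z‖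

/-- The term of index `n + 1` of the Bohr sum: `(|a_{n+1}| + |b_{n+1}|) r^{n+1}`. -/
noncomputable def bohrTerm (h g : ℂ → ℂ) (r : ℝ) (n : ℕ) : ℝ :=
  (‖coeff h (n + 1)‖ + ‖coeff g (n + 1)‖) * r ^ (n + 1)

/-- The conjectured radius. -/
noncomputable def bohrRadius (K : ℝ) : ℝ := 1 / 4 * √(7 / 2 - 1 / (2 * K ^ 2) + 5 / K)

/-- The function `z (z - a) / (1 - a z)`. -/
noncomputable def hExt (a : ℝ) (z : ℂ) : ℂ := z * (z - a) / (1 - a * z)

/-- The function `k z (z - a) / (1 - a z)`, with `k = (K - 1) / (K + 1)`. -/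
noncomputable def gExt (K a : ℝ) (z : ℂ) : ℂ := (((K - 1) / (K + 1) : ℝ) : ℂ) * hExt a z

lemma radius_sq {K : ℝ} (hK : 1 < K) :
    bohrRadius K ^ 2 = (-((K + 1) / (2 * K)) ^ 2 + 6 * ((K + 1) / (2 * K)) - 1) / 8 ∧
      0 < bohrRadius K := by
  have hK0 : 0 < K := by linarith
  have h1 : 7 / 2 - 1 / (2 * K ^ 2) + 5 / K = (7 * K ^ 2 + 10 * K - 1) / (2 * K ^ 2) := by
    field_simp
    ring
  have h2 : 0 < 7 / 2 - 1 / (2 * K ^ 2) + 5 / K := by
    rw [h1]
    apply div_pos _ (by positivity)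
    nlinarith
  constructor
  · unfold bohrRadius
    rw [mul_pow, Real.sq_sqrt h2.le]
    field_simp
    ring
  · unfold bohrRadius
    have := Real.sqrt_pos.mpr h2
    positivity

lemma isPS_coeff {f : ℂ → ℂ} (hf : DifferentiableOn ℂ f (ball (0 : ℂ) 1)) : IsPS (coeff f) f :=
  exists_isPS hf

lemma IsPS.const_mul {a : ℕ → ℂ} {f : ℂ → ℂ} (h : IsPS a f) (c : ℂ) :
    IsPS (fun n => c * a n) (fun z => c * f z) := by
  intro z hz
  have h1 := (h z hz).mul_left c
  have h2 : (fun n => c * (a n * z ^ n)) = fun n => c * a n * z ^ n := by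
    funext n
    ring
  rw [h2] at h1
  exact h1

lemma upper {K : ℝ} (hK : 1 < K) {h g : ℂ → ℂ} (hc : InClass K h g) (N : ℕ) :
    ∑ n ∈ range N, (‖coeff h n‖ + ‖coeff g n‖) * bohrRadius K ^ n ≤ supNorm h := by
  have hK0 : 0 < K := by linarith
  obtain ⟨hr2, hr0⟩ := radius_sq hK
  have hk : 0 < (K - 1) / (K + 1) := div_pos (by linarith) (by linarith)
  have hmk : (K + 1) / (2 * K) * (1 + (K - 1) / (K + 1)) = 1 := by
    field_simp
    ring
  have hm1 : 1 / 2 ≤ (K + 1) / (2 * K) := by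
    rw [div_le_div_iff₀ (by norm_num) (by positivity)]
    linarith
  have hm2 : (K + 1) / (2 * K) ≤ 1 := by
    rw [div_le_one (by positivity)]
    linarith
  have hbdd : BddAbove (Set.range fun z : ball (0 : ℂ) 1 => ‖h z‖) := by
    obtain ⟨M, hM⟩ := hc.h_bdd
    refine ⟨M, ?_⟩
    rintro _ ⟨z, rfl⟩
    exact hM z (mem_ball_zero_iff.mp z.2)
  have hle : ∀ z : ℂ, ‖z‖ < 1 → ‖h z‖ ≤ supNorm h := by
    intro z hz
    exact le_ciSup hbdd (⟨z, by simpa using hz⟩ : ball (0 : ℂ) 1)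
  have hM0 : 0 ≤ supNorm h := by
    have := hle 0 (by simp)
    exact (norm_nonneg _).trans this
  have ha := isPS_coeff hc.h_diff
  have hb := isPS_coeff hc.g_diff
  have ha0 : coeff h 0 = 0 := by rw [← ha.at_zero, hc.h_zero]
  have hb0 : coeff g 0 = 0 := by rw [← hb.at_zero, hc.g_zero]
  apply le_of_forall_pos_le_add
  intro ε hε
  have hM' : 0 < supNorm h + ε := by linarith
  obtain ⟨c, hcdef⟩ : ∃ c : ℝ, c = (supNorm h + ε)⁻¹ := ⟨_, rfl⟩
  have hc0 : 0 < c := by rw [hcdef]; positivity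
  have hcM : c * (supNorm h + ε) = 1 := by rw [hcdef]; exact inv_mul_cancel₀ hM'.ne'
  have hnc : ‖(c : ℂ)‖ = c := by rw [Complex.norm_real, Real.norm_of_nonneg hc0.le]
  have hcore := core (IsPS.const_mul ha (c : ℂ)) (IsPS.const_mul hb (c : ℂ))
    (by rw [ha0, mul_zero]) (by rw [hb0, mul_zero]) (by
      intro z hz
      rw [norm_mul, hnc, ← hcM]
      apply mul_le_mul_of_nonneg_left _ hc0.le
      have := hle z hz
      linarith) hk (by
      intro z hz
      rw [deriv_const_mul_field, deriv_const_mul_field, norm_mul, norm_mul, hnc]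
      have := mul_le_mul_of_nonneg_left (hc.dil z hz) hc0.le
      linarith) hmk hm1 hm2 hr0 hr2 N
  have e : ∑ n ∈ range N, (‖(c : ℂ) * coeff h n‖ + ‖(c : ℂ) * coeff g n‖) * bohrRadius K ^ n =
      c * ∑ n ∈ range N, (‖coeff h n‖ + ‖coeff g n‖) * bohrRadius K ^ n := by
    rw [Finset.mul_sum]
    apply Finset.sum_congr rfl
    intro n _
    rw [norm_mul, norm_mul, hnc]
    ring
  rw [e, ← hcM] at hcore
  exact le_of_mul_le_mul_left hcore hc0

lemma part_i {K : ℝ} (hK : 1 < K) {h g : ℂ → ℂ} (hc : InClass K h g) {r : ℝ} (h0 : 0 ≤ r)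
    (hr : r ≤ bohrRadius K) :
    Summable (bohrTerm h g r) ∧ ∑' n, bohrTerm h g r n ≤ supNorm h := by
  have hpos : ∀ n, 0 ≤ bohrTerm h g r n := by
    intro n
    unfold bohrTerm
    positivity
  have hb : ∀ N, ∑ n ∈ range N, bohrTerm h g r n ≤ supNorm h := by
    intro N
    refine le_trans ?_ (upper hK hc (N + 1))
    rw [Finset.sum_range_succ']
    have h1 : 0 ≤ (‖coeff h 0‖ + ‖coeff g 0‖) * bohrRadius K ^ 0 := by positivity
    have h2 : ∑ n ∈ range N, bohrTerm h g r n ≤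
        ∑ n ∈ range N, (‖coeff h (n + 1)‖ + ‖coeff g (n + 1)‖) * bohrRadius K ^ (n + 1) := by
      apply Finset.sum_le_sum
      intro n _
      unfold bohrTerm
      apply mul_le_mul_of_nonneg_left _ (by positivity)
      exact pow_le_pow_left₀ h0 hr _
    linarith
  exact ⟨summable_of_sum_range_le hpos hb, Real.tsum_le_of_sum_range_le hpos hb⟩

lemma ext_class {K a : ℝ} (hK : 1 < K) (h0 : 0 < a) (h1 : a < 1) :
    InClass K (hExt a) (gExt K a) where
  h_diff := (isPS_blaschke h0 h1).diff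
  g_diff := (isPS_blaschke h0 h1).diff.const_mul _
  h_zero := by simp [hExt]
  g_zero := by simp [gExt, hExt]
  h_bdd := ⟨1, fun z hz => blaschke_norm h0 h1 hz⟩
  dil := by
    intro z _
    have hk : 0 < (K - 1) / (K + 1) := div_pos (by linarith) (by linarith)
    have e : gExt K a = fun z => (((K - 1) / (K + 1) : ℝ) : ℂ) * hExt a z := rfl
    rw [e, deriv_const_mul_field, norm_mul, Complex.norm_real, Real.norm_of_nonneg hk.le]

lemma ext_sup {a : ℝ} (h0 : 0 < a) (h1 : a < 1) : supNorm (hExt a) ≤ 1 := by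
  unfold supNorm
  have : Nonempty (ball (0 : ℂ) 1) := ⟨⟨0, by simp⟩⟩
  apply ciSup_le
  intro z
  exact blaschke_norm h0 h1 (mem_ball_zero_iff.mp z.2)

lemma ext_sum {K a r : ℝ} (hK : 1 < K) (h0 : 0 < a) (h1 : a < 1) (hr : 0 ≤ r) (har : r * a < 1) :
    HasSum (bohrTerm (hExt a) (gExt K a) r)
      ((1 + (K - 1) / (K + 1)) * (r * a + r ^ 2 * (1 - a ^ 2) / (1 - r * a))) := by
  have hk : 0 < (K - 1) / (K + 1) := div_pos (by linarith) (by linarith)
  have hps : IsPS (cB a) (hExt a) := isPS_blaschke h0 h1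
  have hps2 : IsPS (fun n => (((K - 1) / (K + 1) : ℝ) : ℂ) * cB a n) (gExt K a) :=
    IsPS.const_mul hps _
  have e1 : coeff (hExt a) = cB a := (isPS_coeff (ext_class hK h0 h1).h_diff).unique hps
  have e2 : coeff (gExt K a) = fun n => (((K - 1) / (K + 1) : ℝ) : ℂ) * cB a n :=
    (isPS_coeff (ext_class hK h0 h1).g_diff).unique hps2
  have h3 := (hasSum_cB h0 h1 hr har).mul_left (1 + (K - 1) / (K + 1))
  have e3 : bohrTerm (hExt a) (gExt K a) r =
      fun n => (1 + (K - 1) / (K + 1)) * (‖cB a (n + 1)‖ * r ^ (n + 1)) := by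
    funext n
    unfold bohrTerm
    rw [e1, e2, norm_mul, Complex.norm_real, Real.norm_of_nonneg hk.le]
    ring
  rw [e3]
  exact h3

/-- data at the critical parameter -/
lemma ext_value {K r : ℝ} (hK : 1 < K) (hr : bohrRadius K ≤ r) :
    ∃ a : ℝ, 0 < a ∧ a < 1 ∧ r * a < 1 ∧
      (1 + (K - 1) / (K + 1)) * (r * a + r ^ 2 * (1 - a ^ 2) / (1 - r * a)) - 1 =
        (1 + (K - 1) / (K + 1)) * ((r ^ 2 - bohrRadius K ^ 2) / (1 - r * a)) := by
  obtain ⟨hr2, hr0⟩ := radius_sq hK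
  have hK0 : 0 < K := by linarith
  have hmk : (K + 1) / (2 * K) * (1 + (K - 1) / (K + 1)) = 1 := by
    field_simp
    ring
  have hm1 : 1 / 2 ≤ (K + 1) / (2 * K) := by
    rw [div_le_div_iff₀ (by norm_num) (by positivity)]
    linarith
  have hm2 : (K + 1) / (2 * K) ≤ 1 := by
    rw [div_le_one (by positivity)]
    linarith
  obtain ⟨m, hm⟩ : ∃ m, m = (K + 1) / (2 * K) := ⟨_, rfl⟩
  rw [← hm] at hmk hm1 hm2 hr2
  have hrpos : 0 < r := lt_of_lt_of_le hr0 hr
  have hv := sharp_value (m := m) (r := r) hm1 hm2 hrpos rfl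
  obtain ⟨hv1, hv2⟩ := hv
  refine ⟨(1 + m) / (4 * r), by positivity, ?_, by linarith, ?_⟩
  · rw [div_lt_one (by positivity)]
    have h1 : ((1 + m) / 4) ^ 2 < r ^ 2 := by
      have h2 : bohrRadius K ^ 2 ≤ r ^ 2 := pow_le_pow_left₀ hr0.le hr 2
      have h3 : ((1 + m) / 4) ^ 2 < bohrRadius K ^ 2 := by
        rw [hr2]
        nlinarith
      linarith
    have h4 : (1 + m) / 4 < r := lt_of_pow_lt_pow_left₀ 2 hrpos.le h1
    linarith
  · rw [hr2, ← hv1]
    linear_combination hmk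

/-- **Theorem.** For every `K > 1` the Bohr radius of the class `F_K` is the conjectured number
`r_K`. -/
theorem result (K : ℝ) (hK : 1 < K) :
    -- (i) the inequality holds for all `0 ≤ r ≤ r_K`
    (∀ h g : ℂ → ℂ, InClass K h g → ∀ r : ℝ, 0 ≤ r → r ≤ bohrRadius K →
      Summable (bohrTerm h g r) ∧ ∑' n, bohrTerm h g r n ≤ supNorm h) ∧
    -- (ii) it fails for every `r > r_K`, for a mapping of the conjectured form
    (∀ r : ℝ, bohrRadius K < r → ∃ a : ℝ, 0 < a ∧ a < 1 ∧ InClass K (hExt a) (gExt K a) ∧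
      Summable (bohrTerm (hExt a) (gExt K a) r) ∧
        supNorm (hExt a) < ∑' n, bohrTerm (hExt a) (gExt K a) r n) ∧
    -- (iii) equality is attained at `r_K` by a nonzero mapping of the conjectured form
    (∃ a : ℝ, 0 < a ∧ a < 1 ∧ InClass K (hExt a) (gExt K a) ∧ supNorm (hExt a) = 1 ∧
      ∑' n, bohrTerm (hExt a) (gExt K a) (bohrRadius K) n = supNorm (hExt a)) := by
  obtain ⟨hr2, hr0⟩ := radius_sq hK
  have hk : 0 < (K - 1) / (K + 1) := div_pos (by linarith) (by linarith)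
  refine ⟨fun h g hc r h0 hr => part_i hK hc h0 hr, ?_, ?_⟩
  · intro r hr
    obtain ⟨a, h0, h1, har, hval⟩ := ext_value hK hr.le
    have hs := ext_sum hK h0 h1 (hr0.le.trans hr.le) har
    refine ⟨a, h0, h1, ext_class hK h0 h1, hs.summable, ?_⟩
    rw [hs.tsum_eq]
    have hsup := ext_sup h0 h1
    have hpos : 0 < (1 + (K - 1) / (K + 1)) * ((r ^ 2 - bohrRadius K ^ 2) / (1 - r * a)) := by
      apply mul_pos (by linarith)
      apply div_pos _ (by linarith)
      nlinarith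
    linarith
  · obtain ⟨a, h0, h1, har, hval⟩ := ext_value hK le_rfl
    have hs := ext_sum hK h0 h1 hr0.le har
    have hsup := ext_sup h0 h1
    have hi := (part_i hK (ext_class hK h0 h1) hr0.le le_rfl).2
    rw [sub_self, zero_div, mul_zero] at hval
    have hv : ∑' n, bohrTerm (hExt a) (gExt K a) (bohrRadius K) n = 1 := by
      rw [hs.tsum_eq]
      linarith
    rw [hv] at hi
    have hone : supNorm (hExt a) = 1 := le_antisymm hsup hi
    exact ⟨a, h0, h1, ext_class hK h0 h1, hone, by rw [hv, hone]⟩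

end Pool.Agent.Results.MP_8fe0b8_an.SharpRadius
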